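import Pool.Agent.W870.PD.Stmts2
import Pool.Agent.W90.PD.Coarse

/-!
# Project PD, part FIN-S
-/

set_option autoImplicit false
set_option linter.all false

open MeasureTheory Set Pool.Agent.H978R2 Pool.Agent.W804.HP

namespace Pool.Agent.W21.PD

open Pool.Agent.W870.PD

/-- the event of a void at the origin, for hyperedges -/
def Ev0 (d k R : ℕ) : Set ((Fin d → ℤ) → Bool) :=
  {ω | ∀ e : Sym2 (Fin d → ℤ), e ∈ (lat d).edgeSet → (∃ v ∈ e, v ∈ bx (0 : Fin d → ℤ) k) →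
    e ∉ cl sN (bx (0 : Fin d → ℤ) R) ω (sF (0 : Fin d → ℤ) R : Set (Sym2 (Fin d → ℤ)))}

lemma dep_Ev0 (d k R : ℕ) :
    DepOn ((bx (0 : Fin d → ℤ) R : Finset (Fin d → ℤ)) : Set (Fin d → ℤ)) (Ev0 d k R) := by
  intro ω ω' h
  unfold Ev0
  simp only [mem_setOf_eq]
  rw [cl_congr (fun i hi => h i hi)]

lemma Ev0_sub_void {d k R n : ℕ} (hd : 1 ≤ d) (hkn : k ≤ n) (hkR : k ≤ R) (hRn : R ≤ n) :
    Ev0 d k R ⊆ VoidS d k n := by
  intro ω hω x hx y hy hcon
  obtain ⟨hox, hoy, hr⟩ := hcon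
  have i0 : Fin d := ⟨0, hd⟩
  have hxn : x ∈ bx (0 : Fin d → ℤ) n := bx_mono 0 hkn hx
  have hyn : y ∈ bx (0 : Fin d → ℤ) n := (mem_sph.1 hy).1
  have h1 : se i0 x ∈ cl sN (bx (0 : Fin d → ℤ) n) ω (sF (0 : Fin d → ℤ) n) := by
    apply R_sub_cl i0
    simp only [mem_iUnion, exists_prop]
    exact ⟨y, hy, ⟨hxn, hyn, hox, hoy⟩, hr⟩
  obtain ⟨f, hf, hfc⟩ := h1
  obtain ⟨f', hf', hc'⟩ := site_exit 0 R 0 n ω (se i0 x) f (bx_mono 0 hRn)
    ⟨x, Sym2.mem_mk_left _ _, bx_mono 0 hkR hx⟩ hf hfc.symm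
  exact hω (se i0 x) (se_mem i0 x).1 ⟨x, Sym2.mem_mk_left _ _, hx⟩ ⟨f', hf', hc'.symm⟩

/-- translation of the void event -/
lemma void_trans (d k R : ℕ) (p : NNReal) (hp : p ≤ 1) (c : Fin d → ℤ) :
    (bm _ p hp).real {ω : (Fin d → ℤ) → Bool | ∀ e : Sym2 (Fin d → ℤ), e ∈ (lat d).edgeSet →
      (∃ v ∈ e, v ∈ bx c k) →
      e ∉ cl sN (bx c R) ω (sF c R : Set (Sym2 (Fin d → ℤ)))} ≤
    (bm _ p hp).real (Ev0 d k R) := by
  rw [← bm_rel p hp (Equiv.addLeft c) (dep_Ev0 d k R).measurable_fin]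
  refine measureReal_mono ?_ (measure_ne_top _ _)
  intro ω hω e he hv hcl
  have hc0 : (isoT c).σ 0 = c := by
    show c + 0 = c
    simp
  have hE : bx c R = (bx (0 : Fin d → ℤ) R).map (Equiv.addLeft c).toEmbedding := by
    have := bx_iso (isoT c) 0 R
    rw [hc0] at this
    exact this
  have h1 : (s2 (Equiv.addLeft c)) e ∈ cl sN (bx c R) ω (sF c R : Set (Sym2 (Fin d → ℤ))) := by
    rw [hE, sF_trans c R]
    exact (rel_cl (σ := Equiv.addLeft c) (τ := s2 (Equiv.addLeft c))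
      (fun i => sN_iso (isoT c) i)).2 hcl
  refine hω _ ?_ ?_ h1
  · induction e using Sym2.ind with
    | _ a b => exact ((isoT c).adj a b).2 he
  · obtain ⟨v, hve, hvb⟩ := hv
    refine ⟨(Equiv.addLeft c) v, mem_s2.2 hve, ?_⟩
    have h3 := (isoT c).box v 0 k
    rw [hc0] at h3
    exact h3.2 hvb

/-- the infinite cluster from the coarse event -/
lemma inf_of_coarse {d : ℕ} (k r : ℕ) (ω : (Fin d → ℤ) → Bool)
    (h : ∀ R : ℕ, ∃ f ∈ sF (0 : Fin d → ℤ) r, ∃ z : Fin d → ℤ, z ∉ bx (0 : Fin d → ℤ) R ∧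
      ∃ v : Sym2 (Fin d → ℤ), (v ∈ (lat d).edgeSet ∧ ∃ w ∈ v, w ∈ bx (cc k z) k) ∧
      ∃ m : ℕ, Con sN (bx (0 : Fin d → ℤ) m) ω f v) :
    ω ∈ ⋃ x ∈ bx (0 : Fin d → ℤ) (r + 1), InfS x := by
  classical
  have key : ∀ n : ℕ, r + 1 ≤ n → ∃ x ∈ bx (0 : Fin d → ℤ) (r + 1), ω ∈ OutS x n := by
    intro n hn
    obtain ⟨f, hf, z, hz, v, ⟨hv, w, hw, hwb⟩, m, hc⟩ := h (n + 1)
    obtain ⟨hfe, ⟨a, ha, har⟩, -⟩ := mem_sF.1 hf
    -- all the vertices of `f` lie in the box of radius `r + 1`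
    have hfv : ∀ x, x ∈ f → x ∈ bx (0 : Fin d → ℤ) (r + 1) := by
      intro x hx
      by_cases hxa : a = x
      · rw [← hxa]; exact bx_mono 0 (by omega) har
      · have hadj : (lat d).Adj a x := by
          have := hfe
          rw [show f = s(a, x) from (Sym2.mem_and_mem_iff hxa).1 ⟨ha, hx⟩] at this
          exact this
        rw [mem_bx] at har ⊢
        intro i
        have h1 := har i
        have h2 := adj_abs_le hadj i
        rw [abs_le] at h1 h2 ⊢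
        push_cast
        constructor <;> linarith [h1.1, h1.2, h2.1, h2.2]
    -- all the vertices of `v` lie outside of the box of radius `n`
    obtain ⟨i, hi⟩ : ∃ i, ((n + 1 : ℕ) : ℤ) < |z i| := by
      by_contra hcon
      push Not at hcon
      exact hz (mem_bx.2 fun i => by simpa using hcon i)
    have hwi : ((n + 2 : ℕ) : ℤ) ≤ |w i| := by
      have h1 := mem_bx.1 hwb i
      unfold cc at h1
      have h2 : |(2 * (k : ℤ) + 1) * z i| ≤ |w i - (2 * (k : ℤ) + 1) * z i| + |w i| := by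
        have := abs_sub (w i) (w i - (2 * (k : ℤ) + 1) * z i)
        have e : w i - (w i - (2 * (k : ℤ) + 1) * z i) = (2 * (k : ℤ) + 1) * z i := by ring
        rw [e] at this
        linarith
      rw [abs_mul, abs_of_nonneg (by positivity : (0 : ℤ) ≤ 2 * (k : ℤ) + 1)] at h2
      push_cast at hi ⊢
      have hk0 : (0 : ℤ) ≤ k := by positivity
      nlinarith
    have hvv : ∀ y, y ∈ v → y ∉ bx (0 : Fin d → ℤ) n := by
      intro y hy hyn
      have h3 := mem_bx.1 hyn i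
      simp only [Pi.zero_apply, sub_zero] at h3
      have h4 : |w i - y i| ≤ 1 := by
        by_cases hwy : w = y
        · rw [hwy]; simp
        · have hadj : (lat d).Adj w y := by
            have := hv
            rw [show v = s(w, y) from (Sym2.mem_and_mem_iff hwy).1 ⟨hw, hy⟩] at this
            exact this
          exact adj_abs_le hadj i
      have h5 := abs_sub_abs_le_abs_sub (w i) (y i)
      push_cast at hwi
      linarith
    have hne : f ≠ v := by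
      rintro rfl
      exact hvv a ha (bx_mono 0 (by omega) har)
    -- the first step
    obtain ⟨x, hxB, hox, hfx⟩ : ∃ x ∈ bx (0 : Fin d → ℤ) m, ω x = true ∧ f ∈ sN x := by
      rcases Relation.ReflTransGen.cases_head hc with h1 | ⟨g, ⟨x, hxB, hox, hfx, _⟩, _⟩
      · exact absurd h1 hne
      · exact ⟨x, hxB, hox, hfx⟩
    obtain ⟨y, hyB, hoy, hvy⟩ : ∃ y ∈ bx (0 : Fin d → ℤ) m, ω y = true ∧ v ∈ sN y := by
      rcases Relation.ReflTransGen.cases_tail hc with h1 | ⟨g, _, ⟨y, hyB, hoy, _, hvy⟩⟩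
      · exact absurd h1.symm hne
      · exact ⟨y, hyB, hoy, hvy⟩
    have hr := (con_site hxB hyB hox hoy hfx hvy).1 hc
    exact ⟨x, hfv x hfx.2, y, hvv y hvy.2, hr.mono (openS_mono le_rfl (subset_univ _))⟩
  have hanti : ∀ x : Fin d → ℤ, ∀ n n' : ℕ, n ≤ n' → ω ∈ OutS x n' → ω ∈ OutS x n := by
    rintro x n n' hn ⟨y, hy, hr⟩
    exact ⟨y, fun h' => hy (bx_mono 0 hn h'), hr⟩
  by_contra hcon
  simp only [mem_iUnion, exists_prop, not_exists, not_and] at hcon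
  have hex : ∀ x ∈ bx (0 : Fin d → ℤ) (r + 1), ∃ n : ℕ, ω ∉ OutS x n := by
    intro x hx
    have := hcon x hx
    rw [InfS_eq, mem_iInter] at this
    push Not at this
    exact this
  choose! g hg using hex
  obtain ⟨x, hx, hxo⟩ := key (r + 1 + (bx (0 : Fin d → ℤ) (r + 1)).sup g) (by omega)
  exact hg x hx (hanti x _ _ (by
    have := Finset.le_sup (f := g) hx
    omega) hxo)

/-- FIN-S -/
theorem finS (h1 : S_main) (h2 : S_coarse) (h3 : S_cont) (h4 : S_instS) : S_finS := by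
  intro d p hp hd hp0 hPol
  obtain ⟨A, hA, hinst⟩ := h4 d p hp (by omega) hp0 hPol
  obtain ⟨q0, hmain⟩ := h1 d hd
  refine ⟨50 * A + 200 * d * A + 10, max 2 q0, fun k hk hvoid => ?_⟩
  set C := 50 * A + 200 * d * A + 10 with hC
  have hk2 : 2 ≤ k := le_trans (le_max_left _ _) hk
  have hkq : q0 ≤ k := le_trans (le_max_right _ _) hk
  obtain ⟨M, hMq, hMN, hME, hMF, hMU⟩ := hinst k hk2
  have hcc0 : (cc k 0 : Fin d → ℤ) = 0 := by
    funext i
    simp [cc]
  set t := M.q ^ 50 with ht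
  have htk : t = k ^ (50 * A) := by
    rw [ht, hMq, ← pow_mul]
    congr 1
    ring
  have ht1 : 1 ≤ t := by
    rw [htk]
    exact Nat.one_le_pow _ _ (by omega)
  -- radii
  have hR : rr k (8 * t) ≤ k ^ C := by
    unfold rr
    have e1 : 2 * k + 1 ≤ k ^ 3 := by
      have : k * 4 ≤ k * k ^ 2 := Nat.mul_le_mul_left k (by nlinarith)
      have e : k ^ 3 = k * k ^ 2 := by ring
      omega
    have e2 : 8 ≤ k ^ 3 := by
      calc 8 = 2 ^ 3 := by norm_num
        _ ≤ k ^ 3 := Nat.pow_le_pow_left hk2 3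
    have e3 : (2 * k + 1) * (8 * t) ≤ k ^ (50 * A + 6) := by
      calc (2 * k + 1) * (8 * t) ≤ k ^ 3 * (k ^ 3 * t) :=
            Nat.mul_le_mul e1 (Nat.mul_le_mul_right _ e2)
        _ = k ^ (50 * A + 6) := by rw [htk]; ring
    have e4 : k ≤ k ^ (50 * A + 6) := by
      calc k = k ^ 1 := (pow_one k).symm
        _ ≤ k ^ (50 * A + 6) := Nat.pow_le_pow_right (by omega) (by omega)
    calc (2 * k + 1) * (8 * t) + k ≤ k ^ (50 * A + 6) + k ^ (50 * A + 6) := by omega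
      _ = 2 * k ^ (50 * A + 6) := by ring
      _ ≤ k * k ^ (50 * A + 6) := Nat.mul_le_mul_right _ hk2
      _ = k ^ (50 * A + 7) := by ring
      _ ≤ k ^ C := Nat.pow_le_pow_right (by omega) (by omega)
  have hkR : k ≤ rr k (8 * t) := by unfold rr; omega
  -- the void estimate
  have hv : ∀ z : Fin d → ℤ, (bm _ p hp).real {ω | ∀ x ∈ M.U z, x ∉ M.cB z (8 * M.q ^ 50) ω} ≤
      1 / (M.q : ℝ) ^ (200 * d) := by
    intro z
    have s1 : {ω | ∀ x ∈ M.U z, x ∉ M.cB z (8 * M.q ^ 50) ω} ⊆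
        {ω : (Fin d → ℤ) → Bool | ∀ e : Sym2 (Fin d → ℤ), e ∈ (lat d).edgeSet →
          (∃ v ∈ e, v ∈ bx (cc k z) k) →
          e ∉ cl sN (bx (cc k z) (rr k (8 * t))) ω
            (sF (cc k z) (rr k (8 * t)) : Set (Sym2 (Fin d → ℤ)))} := by
      intro ω hω e he hve
      have h5 := hω e ((hMU z e).2 ⟨he, hve⟩)
      unfold Geo.cB at h5
      rw [hMN, hME, hMF] at h5
      exact h5
    have s2 := measureReal_mono (μ := bm _ p hp) s1 (measure_ne_top _ _)
    have s3 := void_trans d k (rr k (8 * t)) p hp (cc k z)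
    have s4 := measureReal_mono (μ := bm _ p hp)
      (Ev0_sub_void (d := d) (k := k) (R := rr k (8 * t)) (n := k ^ C) (by omega)
        (hkR.trans hR) hkR hR) (measure_ne_top _ _)
    have s5 : 1 / (k : ℝ) ^ C ≤ 1 / (M.q : ℝ) ^ (200 * d) := by
      rw [hMq]
      have hk0 : (0 : ℝ) < k := by exact_mod_cast (by omega : 0 < k)
      have hk1 : (1 : ℝ) ≤ k := by exact_mod_cast (by omega : 1 ≤ k)
      apply one_div_le_one_div_of_le
      · push_cast
        positivity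
      · push_cast
        rw [← pow_mul]
        apply pow_le_pow_right₀ hk1
        have : A * (200 * d) = 200 * d * A := by ring
        omega
    linarith
  have hq0 : q0 ≤ M.q := by
    rw [hMq]
    exact hkq.trans (Nat.le_self_pow (by omega) k)
  have hgood := hmain _ _ p hp M hq0 hv
  -- the smaller parameter
  set K : ℕ := M.q * (2 * (12 * t) + 1) ^ d with hK
  have hp0R : (0 : ℝ) < p := by exact_mod_cast hp0
  set δ : ℝ := min ((p : ℝ) / 2) (1 / (10 ^ 13 * ((K : ℝ) + 1))) with hδ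
  have hδ0 : 0 < δ := lt_min (by positivity) (by positivity)
  have hδp : δ ≤ p / 2 := min_le_left _ _
  have hδK : δ ≤ 1 / (10 ^ 13 * ((K : ℝ) + 1)) := min_le_right _ _
  have hpδ : 0 ≤ (p : ℝ) - δ := by linarith
  set p' : NNReal := ⟨(p : ℝ) - δ, hpδ⟩ with hp'def
  have hp'R : (p' : ℝ) = (p : ℝ) - δ := rfl
  have hlt : p' < p := by
    rw [← NNReal.coe_lt_coe, hp'R]
    linarith
  have hp' : p' ≤ 1 := hlt.le.trans hp
  refine ⟨p', hp', hlt, ?_⟩
  have hgood' : ∀ u : ℤ × ℤ, (bm _ p' hp').real (M.Good t u)ᶜ ≤ 1 / 10 ^ 12 := by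
    intro u
    have c1 := h3 _ (M.E (Geo.ctr t u false 0) (12 * t)) (M.Good t u)ᶜ p p' hp hp'
      (Pool.Agent.W90.PD.good_dep M.toGeo t u).compl
    have c2 := hgood u
    have c3 : ((M.E (Geo.ctr t u false 0) (12 * t)).card : ℝ) ≤ K := by
      exact_mod_cast M.card_E _ _
    have c4 : |(p : ℝ) - p'| = δ := by
      rw [hp'R]
      have : (p : ℝ) - (p - δ) = δ := by ring
      rw [this, abs_of_pos hδ0]
    rw [c4, abs_le] at c1
    have c5 : ((M.E (Geo.ctr t u false 0) (12 * t)).card : ℝ) * δ ≤ 1 / 10 ^ 13 := by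
      have hK0 : (0 : ℝ) ≤ K := Nat.cast_nonneg K
      calc ((M.E (Geo.ctr t u false 0) (12 * t)).card : ℝ) * δ
          ≤ K * (1 / (10 ^ 13 * ((K : ℝ) + 1))) :=
            mul_le_mul c3 hδK hδ0.le hK0
        _ ≤ 1 / 10 ^ 13 := by
            rw [mul_one_div, div_le_div_iff₀ (by positivity) (by norm_num)]
            nlinarith
    have c6 : (1 : ℝ) / 10 ^ 13 + 1 / 10 ^ 13 ≤ 1 / 10 ^ 12 := by norm_num
    linarith [c1.1, c1.2]
  have hco := h2 d _ _ M.toGeo t p' hp' (by omega) ht1 hgood'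
  have hsub : {ω | ∀ R : ℕ, ∃ f ∈ M.F 0 (4 * t), ∃ z, z ∉ bx 0 R ∧
      ∃ v ∈ M.U z, ∃ m, Con M.N (M.E 0 m) ω f v} ⊆
      ⋃ x ∈ bx (0 : Fin d → ℤ) (rr k (4 * t) + 1), InfS x := by
    intro ω hω
    apply inf_of_coarse k (rr k (4 * t)) ω
    intro R
    obtain ⟨f, hf, z, hz, v, hvU, m, hc⟩ := hω R
    rw [hMF, hcc0] at hf
    rw [hMU] at hvU
    rw [hMN, hME, hcc0] at hc
    exact ⟨f, hf, z, hz, v, hvU, rr k m, hc⟩
  have hle := measureReal_mono (μ := bm _ p' hp') hsub (measure_ne_top _ _)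
  have hun := measureReal_biUnion_finset_le (μ := bm _ p' hp')
    (bx (0 : Fin d → ℤ) (rr k (4 * t) + 1)) (fun x => InfS x)
  have hsum : ∑ x ∈ bx (0 : Fin d → ℤ) (rr k (4 * t) + 1), (bm _ p' hp').real (InfS x) =
      ((bx (0 : Fin d → ℤ) (rr k (4 * t) + 1)).card : ℝ) *
        (bm _ p' hp').real (InfS (0 : Fin d → ℤ)) := by
    rw [Finset.sum_congr rfl (fun x _ => InfS_trans p' hp' x), Finset.sum_const, nsmul_eq_mul]
  rw [hsum] at hun
  by_contra hcon
  have hz : (bm _ p' hp').real (InfS (0 : Fin d → ℤ)) = 0 :=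
    le_antisymm (not_lt.1 hcon) measureReal_nonneg
  rw [hz, mul_zero] at hun
  linarith

end Pool.Agent.W21.PD
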